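import Pool.Agent.Q77.LU.StmA

/-!
# Project LU: Jacobi's identity
-/

set_option autoImplicit false

namespace Pool.Agent.Q31.LU

open MeasureTheory Set Filter Topology
open scoped ContDiff
open Pool.Agent.Q77.LU

noncomputable section

section

variable {Q : Type} [Fintype Q] [DecidableEq Q]

omit [DecidableEq Q] in
theorem intg {f F : (Q → ℝ) → ℝ} (hc : HasCompactSupport f) (hF : Continuous F)
    (hz : ∀ x, x ∉ tsupport f → F x = 0) : Integrable F :=
  hF.integrable_of_hasCompactSupport (HasCompactSupport.intro hc hz)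

theorem pd_zero {f : (Q → ℝ) → ℝ} {x : Q → ℝ} (hx : x ∉ tsupport f) (i : Q) : pd f i x = 0 := by
  rw [pd, fderiv_of_notMem_tsupport ℝ hx]
  rfl

theorem pd_cont {f : (Q → ℝ) → ℝ} (hf : ContDiff ℝ 1 f) (i : Q) : Continuous (pd f i) :=
  (hf.continuous_fderiv one_ne_zero).clm_apply continuous_const

theorem pd_contDiff {f : (Q → ℝ) → ℝ} (hf : ContDiff ℝ 2 f) (i : Q) : ContDiff ℝ 1 (pd f i) :=
  (hf.fderiv_right (m := 1) (by norm_num)).clm_apply contDiff_const

theorem pd_mul {u w : (Q → ℝ) → ℝ} (hu : ContDiff ℝ 1 u) (hw : ContDiff ℝ 1 w) (i : Q)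
    (y : Q → ℝ) : pd (fun z => u z * w z) i y = pd u i y * w y + u y * pd w i y := by
  have h1 := hu.differentiable one_ne_zero y
  have h2 := hw.differentiable one_ne_zero y
  rw [pd, fderiv_fun_mul h1 h2]
  simp only [add_apply, smul_apply, smul_eq_mul, pd]
  ring

theorem ibp {u w : (Q → ℝ) → ℝ} (hu : ContDiff ℝ 1 u) (hw : ContDiff ℝ 1 w)
    (hc : HasCompactSupport u) (i : Q) :
    ∫ y, (pd u i y * w y + u y * pd w i y) = 0 := by
  have hu0 := hu.continuous
  have hw0 := hw.continuous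
  have hu1 := pd_cont hu i
  have hw1 := pd_cont hw i
  have i1 : Integrable fun y => pd u i y * w y :=
    intg hc (hu1.mul hw0) fun x hx => by rw [pd_zero hx, zero_mul]
  have i2 : Integrable fun y => u y * pd w i y :=
    intg hc (hu0.mul hw1) fun x hx => by rw [image_eq_zero_of_notMem_tsupport hx, zero_mul]
  have i3 : Integrable fun y => u y * w y :=
    intg hc (hu0.mul hw0) fun x hx => by rw [image_eq_zero_of_notMem_tsupport hx, zero_mul]
  rw [integral_add i1 i2]
  have h := integral_mul_fderiv_eq_neg_fderiv_mul_of_integrable (μ := volume)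
    (v := (Pi.single i 1 : Q → ℝ)) i1 i2 i3
    (fun x _ => hu.differentiable one_ne_zero x) (fun x _ => hw.differentiable one_ne_zero x)
  change ∫ y, u y * pd w i y = -∫ y, pd u i y * w y at h
  rw [h]
  ring

end

theorem t_JAC : S_JAC := by
  intro Q _ _ h ρ f g hg hh hρ hf hc
  have hh1 : ContDiff ℝ 1 h := hh.of_le (by norm_num)
  have hf0 := hf.continuous
  have hρ0 := hρ.continuous
  have hh0 := hh.continuous
  have hf1 := fun i => pd_cont hf i
  have hρ1 := fun i => pd_cont hρ i
  have hhp := fun i => pd_cont hh1 i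
  have hhpp := fun i => pd_cont (pd_contDiff hh i) i
  have hff : ContDiff ℝ 1 (fun z => f z * f z) := hf.mul hf
  have hcf : HasCompactSupport (fun z => f z * f z) := hc.mul_left
  -- the integration by parts
  set A : Q → (Q → ℝ) → ℝ := fun i y =>
    pd (fun z => f z * f z) i y * (ρ y * pd h i y) +
      (f y * f y) * pd (fun z => ρ z * pd h i z) i y with hA
  have hA0 : ∀ i, ∫ y, A i y = 0 := fun i =>
    ibp hff (hρ.mul (pd_contDiff hh i)) hcf i
  have hAeq : ∀ i y, A i y = 2 * (f y * pd f i y) * (ρ y * pd h i y) +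
      (f y * f y) * (pd ρ i y * pd h i y + ρ y * pd (pd h i) i y) := by
    intro i y
    rw [hA]
    simp only
    rw [pd_mul hf hf, pd_mul hρ (pd_contDiff hh i)]
    ring
  have hAi : ∀ i, Integrable (A i) := by
    intro i
    refine intg hc ?_ ?_
    · have : A i = fun y => 2 * (f y * pd f i y) * (ρ y * pd h i y) +
        (f y * f y) * (pd ρ i y * pd h i y + ρ y * pd (pd h i) i y) := funext (hAeq i)
      rw [this]
      have := hf1 i
      have := hρ1 i
      have := hhp i
      have := hhpp i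
      fun_prop
    · intro x hx
      rw [hAeq, image_eq_zero_of_notMem_tsupport hx]
      ring
  have hsum : ∫ y, ∑ i, 1 / 2 * A i y = 0 := by
    rw [integral_finsetSum _ fun i _ => (hAi i).const_mul _]
    refine Finset.sum_eq_zero fun i _ => ?_
    rw [integral_const_mul, hA0 i, mul_zero]
  -- the gradient of the product
  have hE : ContDiff ℝ 1 (fun z => Real.exp (h z / g ^ 2)) := (hh1.div_const _).exp
  have hEpd : ∀ i y, pd (fun z => Real.exp (h z / g ^ 2)) i y =
      Real.exp (h y / g ^ 2) * (pd h i y / g ^ 2) := by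
    intro i y
    have h1 : HasFDerivAt h (fderiv ℝ h y) y := (hh1.differentiable one_ne_zero y).hasFDerivAt
    have h2 : HasFDerivAt (fun z => h z / g ^ 2) ((g ^ 2)⁻¹ • fderiv ℝ h y) y := by
      have := h1.const_mul (g ^ 2)⁻¹
      refine this.congr_of_eventuallyEq (Eventually.of_forall fun z => ?_)
      simp only
      ring
    have h3 := h2.exp
    rw [pd, h3.fderiv]
    simp only [smul_apply, smul_eq_mul, pd]
    ring
  have hgr : ∀ y, Real.exp (-(2 * h y / g ^ 2)) *
      g2 (fun z => f z * Real.exp (h z / g ^ 2)) y =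
      ∑ i, (pd f i y + f y * (pd h i y / g ^ 2)) ^ 2 := by
    intro y
    rw [g2, Finset.mul_sum]
    refine Finset.sum_congr rfl fun i _ => ?_
    rw [pd_mul hf hE, hEpd]
    have : Real.exp (-(2 * h y / g ^ 2)) * Real.exp (h y / g ^ 2) ^ 2 = 1 := by
      rw [← Real.exp_nat_mul, ← Real.exp_add]
      rw [show -(2 * h y / g ^ 2) + ((2 : ℕ) : ℝ) * (h y / g ^ 2) = 0 by push_cast; ring]
      exact Real.exp_zero
    calc Real.exp (-(2 * h y / g ^ 2)) * (pd f i y * Real.exp (h y / g ^ 2) +
          f y * (Real.exp (h y / g ^ 2) * (pd h i y / g ^ 2))) ^ 2 =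
        (Real.exp (-(2 * h y / g ^ 2)) * Real.exp (h y / g ^ 2) ^ 2) *
          (pd f i y + f y * (pd h i y / g ^ 2)) ^ 2 := by ring
      _ = _ := by rw [this, one_mul]
  have hg0 : g ≠ 0 := hg.ne'
  have hpt : ∀ y, g ^ 2 / 2 * ρ y * g2 f y =
      (g ^ 2 / 2 * ρ y * Real.exp (-(2 * h y / g ^ 2)) *
        g2 (fun z => f z * Real.exp (h z / g ^ 2)) y +
      (1 / 2 * (ρ y * lap h y + ∑ i, pd ρ i y * pd h i y) -
        1 / (2 * g ^ 2) * (ρ y * g2 h y)) * f y ^ 2) - ∑ i, 1 / 2 * A i y := by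
    intro y
    rw [mul_assoc (g ^ 2 / 2 * ρ y), hgr]
    have key : ∀ i, g ^ 2 / 2 * ρ y * pd f i y ^ 2 =
        g ^ 2 / 2 * ρ y * (pd f i y + f y * (pd h i y / g ^ 2)) ^ 2 +
        (1 / 2 * (ρ y * pd (pd h i) i y + pd ρ i y * pd h i y) -
          1 / (2 * g ^ 2) * (ρ y * pd h i y ^ 2)) * f y ^ 2 - 1 / 2 * A i y := by
      intro i
      rw [hAeq]
      field_simp
      ring
    have e1 : g ^ 2 / 2 * ρ y * g2 f y = ∑ i, g ^ 2 / 2 * ρ y * pd f i y ^ 2 := by
      rw [g2, Finset.mul_sum]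
    rw [e1, Finset.sum_congr rfl fun i _ => key i, Finset.sum_sub_distrib, Finset.sum_add_distrib,
      ← Finset.mul_sum, ← Finset.sum_mul, Finset.sum_sub_distrib, ← Finset.mul_sum,
      Finset.sum_add_distrib, ← Finset.mul_sum, ← Finset.mul_sum, ← Finset.mul_sum]
    rfl
  have i1 : Integrable fun y => g ^ 2 / 2 * ρ y * Real.exp (-(2 * h y / g ^ 2)) *
        g2 (fun z => f z * Real.exp (h z / g ^ 2)) y := by
    have : (fun y => g ^ 2 / 2 * ρ y * Real.exp (-(2 * h y / g ^ 2)) *
        g2 (fun z => f z * Real.exp (h z / g ^ 2)) y) = fun y => g ^ 2 / 2 * ρ y *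
          ∑ i, (pd f i y + f y * (pd h i y / g ^ 2)) ^ 2 := by
      funext y
      rw [mul_assoc (g ^ 2 / 2 * ρ y), hgr]
    rw [this]
    refine intg hc ?_ ?_
    · fun_prop
    · intro x hx
      rw [image_eq_zero_of_notMem_tsupport hx]
      simp [pd_zero hx]
  have i2 : Integrable fun y => (1 / 2 * (ρ y * lap h y + ∑ i, pd ρ i y * pd h i y) -
        1 / (2 * g ^ 2) * (ρ y * g2 h y)) * f y ^ 2 := by
    refine intg hc ?_ ?_
    · unfold lap g2
      fun_prop
    · intro x hx
      rw [image_eq_zero_of_notMem_tsupport hx]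
      ring
  have i3 : Integrable fun y => ∑ i, 1 / 2 * A i y :=
    integrable_finsetSum _ fun i _ => (hAi i).const_mul _
  rw [integral_congr_ae (Eventually.of_forall hpt)]
  refine (integral_sub (i1.add i2) i3).trans ?_
  rw [hsum, sub_zero]
  exact integral_add i1 i2

end

end Pool.Agent.Q31.LU
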