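import Pool.Agent.Q77.LU.StmA

/-!
# Project LU: removal of the density
-/

set_option autoImplicit false

namespace Pool.Agent.Q31.LU.JR

open MeasureTheory Set Filter Topology
open scoped ContDiff
open Pool.Agent.Q77.LU

noncomputable section

section

variable {E : Type} [NormedAddCommGroup E] [NormedSpace ℝ E]

/-- directional derivative -/
def dd (f : E → ℝ) (v : E) (x : E) : ℝ := fderiv ℝ f x v

theorem dd_zero {f : E → ℝ} {x : E} (hx : x ∉ tsupport f) (v : E) : dd f v x = 0 := by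
  rw [dd, fderiv_of_notMem_tsupport ℝ hx]
  rfl

theorem dd_cont {f : E → ℝ} (hf : ContDiff ℝ 1 f) (v : E) : Continuous (dd f v) :=
  (hf.continuous_fderiv one_ne_zero).clm_apply continuous_const

theorem dd_contDiff {f : E → ℝ} (hf : ContDiff ℝ 2 f) (v : E) : ContDiff ℝ 1 (dd f v) :=
  (hf.fderiv_right (m := 1) (by norm_num)).clm_apply contDiff_const

theorem dd_mul {u w : E → ℝ} (hu : ContDiff ℝ 1 u) (hw : ContDiff ℝ 1 w) (v y : E) :
    dd (fun z => u z * w z) v y = dd u v y * w y + u y * dd w v y := by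
  have h1 := hu.differentiable one_ne_zero y
  have h2 := hw.differentiable one_ne_zero y
  rw [dd, fderiv_fun_mul h1 h2]
  simp only [add_apply, smul_apply, smul_eq_mul, dd]
  ring

variable [FiniteDimensional ℝ E] [MeasurableSpace E] [BorelSpace E] {μ : Measure E}
  [μ.IsAddHaarMeasure]

omit [NormedSpace ℝ E] [FiniteDimensional ℝ E] in
theorem intg {f F : E → ℝ} (hc : HasCompactSupport f) (hF : Continuous F)
    (hz : ∀ x, x ∉ tsupport f → F x = 0) : Integrable F μ :=
  hF.integrable_of_hasCompactSupport (HasCompactSupport.intro hc hz)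

theorem ibp {u w : E → ℝ} (hu : ContDiff ℝ 1 u) (hw : ContDiff ℝ 1 w)
    (hc : HasCompactSupport u) (v : E) :
    ∫ y, (dd u v y * w y + u y * dd w v y) ∂μ = 0 := by
  have hu0 := hu.continuous
  have hw0 := hw.continuous
  have hu1 := dd_cont hu v
  have hw1 := dd_cont hw v
  have i1 : Integrable (fun y => dd u v y * w y) μ :=
    intg hc (hu1.mul hw0) fun x hx => by rw [dd_zero hx, zero_mul]
  have i2 : Integrable (fun y => u y * dd w v y) μ :=
    intg hc (hu0.mul hw1) fun x hx => by rw [image_eq_zero_of_notMem_tsupport hx, zero_mul]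
  have i3 : Integrable (fun y => u y * w y) μ :=
    intg hc (hu0.mul hw0) fun x hx => by rw [image_eq_zero_of_notMem_tsupport hx, zero_mul]
  rw [integral_add i1 i2]
  have h := integral_mul_fderiv_eq_neg_fderiv_mul_of_integrable (μ := μ)
    (v := v) i1 i2 i3
    (fun x _ => hu.differentiable one_ne_zero x) (fun x _ => hw.differentiable one_ne_zero x)
  change ∫ y, u y * dd w v y ∂μ = -∫ y, dd u v y * w y ∂μ at h
  rw [h]
  ring

/-- the potential which appears -/
def Phi {ι : Type} [Fintype ι] (v : ι → E) (ρ J s : E → ℝ) (x : E) : ℝ :=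
  ∑ k, (1 / 2 * dd (fun z => ρ z * dd J (v k) z) (v k) x - ρ x * dd s (v k) x ^ 2)

theorem main {ι : Type} [Fintype ι] (v : ι → E) {f ρ J s : E → ℝ} (hf : ContDiff ℝ 1 f)
    (hc : HasCompactSupport f) (hρ : ContDiff ℝ 1 ρ) (hJ : ContDiff ℝ 2 J) (hs : ContDiff ℝ 1 s)
    (hsJ : ∀ x, s x * s x = J x) :
    (∫ x, ρ x * (∑ k, dd f (v k) x ^ 2) * J x ∂μ) -
      ∫ x, ρ x * (∑ k, dd (fun z => f z * s z) (v k) x ^ 2) ∂μ =
      ∫ x, f x ^ 2 * Phi v ρ J s x ∂μ := by
  have hJ1 : ContDiff ℝ 1 J := hJ.of_le (by norm_num)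
  have hf0 := hf.continuous
  have hρ0 := hρ.continuous
  have hs0 := hs.continuous
  have hJ0 := hJ.continuous
  have hf1 := fun k => dd_cont hf (v k)
  have hs1 := fun k => dd_cont hs (v k)
  have hJp := fun k => dd_cont hJ1 (v k)
  have hρ1 := fun k => dd_cont hρ (v k)
  have hρJ := fun k => hρ.mul (dd_contDiff hJ (v k))
  have hρJ1 := fun k => dd_cont (hρJ k) (v k)
  have hff : ContDiff ℝ 1 (fun z => f z * f z) := hf.mul hf
  have hcf : HasCompactSupport (fun z => f z * f z) := hc.mul_left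
  have hss : ∀ k x, dd J (v k) x = 2 * (s x * dd s (v k) x) := by
    intro k x
    have : J = fun z => s z * s z := funext fun z => (hsJ z).symm
    rw [this, dd_mul hs hs]
    ring
  set A : ι → E → ℝ := fun k y =>
    dd (fun z => f z * f z) (v k) y * (ρ y * dd J (v k) y) +
      (f y * f y) * dd (fun z => ρ z * dd J (v k) z) (v k) y with hA
  have hA0 : ∀ k, ∫ y, A k y ∂μ = 0 := fun k => ibp hff (hρJ k) hcf (v k)
  have hAeq : ∀ k y, A k y = 2 * (f y * dd f (v k) y) * (ρ y * dd J (v k) y) +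
      (f y * f y) * dd (fun z => ρ z * dd J (v k) z) (v k) y := by
    intro k y
    rw [hA]
    simp only
    rw [dd_mul hf hf]
    ring
  have hAi : ∀ k, Integrable (A k) μ := by
    intro k
    refine intg hc ?_ ?_
    · rw [funext (hAeq k)]
      have := hf1 k
      have := hJp k
      have := hρJ1 k
      fun_prop
    · intro x hx
      rw [hAeq, image_eq_zero_of_notMem_tsupport hx]
      ring
  have hsum : ∫ y, ∑ k, 1 / 2 * A k y ∂μ = 0 := by
    rw [integral_finsetSum _ fun k _ => (hAi k).const_mul _]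
    refine Finset.sum_eq_zero fun k _ => ?_
    rw [integral_const_mul, hA0 k, mul_zero]
  have i1 : Integrable (fun x => ρ x * (∑ k, dd f (v k) x ^ 2) * J x) μ := by
    refine intg hc (by fun_prop) ?_
    intro x hx
    simp [dd_zero hx]
  have hfs : ∀ k x, dd (fun z => f z * s z) (v k) x = dd f (v k) x * s x + f x * dd s (v k) x :=
    fun k x => dd_mul hf hs (v k) x
  have i2 : Integrable (fun x => ρ x * (∑ k, dd (fun z => f z * s z) (v k) x ^ 2)) μ := by
    simp only [hfs]
    refine intg hc (by fun_prop) ?_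
    intro x hx
    rw [image_eq_zero_of_notMem_tsupport hx]
    simp [dd_zero hx]
  have hPc : Continuous (Phi v ρ J s) := by
    unfold Phi
    fun_prop
  have i3 : Integrable (fun x => f x ^ 2 * Phi v ρ J s x) μ := by
    refine intg hc (by fun_prop) ?_
    intro x hx
    rw [image_eq_zero_of_notMem_tsupport hx]
    ring
  have i4 : Integrable (fun y => ∑ k, 1 / 2 * A k y) μ :=
    integrable_finsetSum _ fun k _ => (hAi k).const_mul _
  have hpt : ∀ x, ρ x * (∑ k, dd f (v k) x ^ 2) * J x -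
      ρ x * (∑ k, dd (fun z => f z * s z) (v k) x ^ 2) =
      f x ^ 2 * Phi v ρ J s x - ∑ k, 1 / 2 * A k x := by
    intro x
    rw [Phi, Finset.mul_sum, Finset.mul_sum, Finset.sum_mul, Finset.mul_sum,
      ← Finset.sum_sub_distrib, ← Finset.sum_sub_distrib]
    refine Finset.sum_congr rfl fun k _ => ?_
    rw [hAeq, hfs, hss, ← hsJ]
    ring
  rw [← integral_sub i1 i2, integral_congr_ae (Eventually.of_forall hpt)]
  refine (integral_sub i3 i4).trans ?_
  rw [hsum, sub_zero]

end

section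

variable {P Q : Type} [Fintype P] [Fintype Q]

theorem n2_contDiff {ι : Type} [Fintype ι] : ContDiff ℝ ∞ (n2 : (ι → ℝ) → ℝ) := by
  unfold n2
  fun_prop

theorem nx_contDiff : ContDiff ℝ ∞ (nx : (P → ℝ) × (Q → ℝ) → ℝ) := by
  unfold nx
  exact (n2_contDiff.comp contDiff_fst).add (n2_contDiff.comp contDiff_snd)

theorem n2_nonneg {ι : Type} [Fintype ι] (x : ι → ℝ) : 0 ≤ n2 x :=
  Finset.sum_nonneg fun _ _ => sq_nonneg _

theorem norm_le_sqrt {ι : Type} [Fintype ι] (x : ι → ℝ) {R : ℝ} (h : n2 x ≤ R) :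
    ‖x‖ ≤ Real.sqrt R := by
  rw [pi_norm_le_iff_of_nonneg (Real.sqrt_nonneg _)]
  intro i
  rw [Real.norm_eq_abs]
  apply Real.abs_le_sqrt
  refine le_trans ?_ h
  exact Finset.single_le_sum (f := fun i => x i ^ 2) (fun _ _ => sq_nonneg _) (Finset.mem_univ i)

theorem isCompact_nx (R : ℝ) : IsCompact {x : (P → ℝ) × (Q → ℝ) | nx x ≤ R} := by
  refine Metric.isCompact_of_isClosed_isBounded
    (isClosed_le nx_contDiff.continuous continuous_const) ?_
  refine (Metric.isBounded_closedBall (x := (0 : (P → ℝ) × (Q → ℝ)))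
    (r := Real.sqrt R)).subset ?_
  intro x hx
  have h1 := n2_nonneg x.1
  have h2 := n2_nonneg x.2
  have h3 : n2 x.1 + n2 x.2 ≤ R := hx
  rw [mem_closedBall_zero_iff, Prod.norm_def]
  exact max_le (norm_le_sqrt _ (by linarith)) (norm_le_sqrt _ (by linarith))

variable [DecidableEq P] [DecidableEq Q]

/-- the coordinate vectors -/
def vec (k : P ⊕ Q) : (P → ℝ) × (Q → ℝ) :=
  Sum.elim (fun i => (Pi.single i 1, 0)) (fun j => (0, Pi.single j 1)) k

theorem sum_eq (f : (P → ℝ) × (Q → ℝ) → ℝ) (x : (P → ℝ) × (Q → ℝ)) :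
    gC f x + gA f x = ∑ k : P ⊕ Q, dd f (vec k) x ^ 2 := by
  rw [Fintype.sum_sum_type]
  rfl

end

theorem t_JR : S_JR := by
  intro P Q _ _ _ _ L σ
  have : (volume : Measure ((P → ℝ) × (Q → ℝ))).IsAddHaarMeasure :=
    Measure.prod.instIsAddHaarMeasure _ _
  set ρ : (P → ℝ) × (Q → ℝ) → ℝ := fun x => 1 + σ * nx x with hρdef
  have hρ : ContDiff ℝ 1 ρ := contDiff_const.add (contDiff_const.mul (nx_contDiff.of_le (by simp)))
  set s : (P → ℝ) × (Q → ℝ) → ℝ := fun x => Real.sqrt (L.J x) with hsdef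
  have hs : ContDiff ℝ 1 s := (L.Jsm.of_le (by simp)).sqrt fun x => (L.Jpos x).ne'
  have hJ : ContDiff ℝ 2 L.J := L.Jsm.of_le ENat.LEInfty.out
  have hJ1 : ContDiff ℝ 1 L.J := hJ.of_le (by norm_num)
  have hsJ : ∀ x, s x * s x = L.J x := fun x => Real.mul_self_sqrt (L.Jpos x).le
  set Φ : (P → ℝ) × (Q → ℝ) → ℝ := Phi vec ρ L.J s with hΦ
  have hPc : Continuous Φ := by
    have h1 := fun k : P ⊕ Q => dd_cont (hρ.mul (dd_contDiff hJ (vec k))) (vec k)
    have h2 := fun k : P ⊕ Q => dd_cont hs (vec k)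
    have h3 := hρ.continuous
    rw [hΦ]
    unfold Phi
    fun_prop
  obtain ⟨C, hC⟩ := (isCompact_nx (P := P) (Q := Q) (L.r ^ 2)).exists_bound_of_continuousOn
    (f := fun x => Φ x / L.J x)
    ((hPc.div L.Jsm.continuous fun x => (L.Jpos x).ne').continuousOn)
  refine ⟨|C|, abs_nonneg _, fun f hf hsupp => ?_⟩
  have hf1 : ContDiff ℝ 1 f := hf.of_le (by simp)
  have hz : ∀ x, ¬ nx x ≤ L.r ^ 2 → f x = 0 := by
    intro x hx
    by_contra h
    exact hx (hsupp x h).le
  have hc : HasCompactSupport f := HasCompactSupport.intro (isCompact_nx (L.r ^ 2)) hz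
  have hm := main (μ := (volume : Measure ((P → ℝ) × (Q → ℝ)))) (vec : P ⊕ Q → _) hf1 hc hρ hJ hs
    hsJ
  simp only [sum_eq]
  rw [hm, ← integral_const_mul]
  have hf0 := hf.continuous
  have hJ0 := L.Jsm.continuous
  refine (abs_integral_le_integral_abs).trans (integral_mono_of_nonneg
    (Eventually.of_forall fun x => abs_nonneg _) ?_ (Eventually.of_forall fun x => ?_))
  · refine intg hc (by fun_prop) fun x hx => ?_
    rw [image_eq_zero_of_notMem_tsupport hx]
    ring
  · simp only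
    by_cases h : nx x ≤ L.r ^ 2
    · have h1 := hC x h
      rw [Real.norm_eq_abs, abs_div, abs_of_pos (L.Jpos x), div_le_iff₀ (L.Jpos x)] at h1
      rw [abs_mul, abs_of_nonneg (sq_nonneg (f x))]
      calc f x ^ 2 * |Φ x| ≤ f x ^ 2 * (|C| * L.J x) := by
            refine mul_le_mul_of_nonneg_left (h1.trans ?_) (sq_nonneg _)
            exact mul_le_mul_of_nonneg_right (le_abs_self C) (L.Jpos x).le
        _ = |C| * (f x ^ 2 * L.J x) := by ring
    · rw [hz x h]
      simp

end

end Pool.Agent.Q31.LU.JR
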